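import Mathlib
import Pool.Agent.Lib.MP_9cfc0a_nt.U2
import Pool.Agent.Lib.MP_9cfc0a_nt.W2
import Pool.Agent.Lib.MP_9cfc0a_nt.C1B
import Pool.Agent.Lib.MP_9cfc0a_nt.C2H17

/-!
# MP_9cfc0a_nt: zeros of Dirichlet L-functions and Montgomery's bound for almost all classes

Let `D` be a set of positive integers and `0 ≤ η < 1/4`. The absence of zeros in `3/4 + η < Re s < 1` of
the `L`-functions of the characters modulo the elements of `D` is equivalent to Montgomery's bound with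
exponent `1/2 + η + ε` for all but `C X ^ (1 - δ)` of the reduced residue classes to the moduli
`q = d p ≤ X ^ (1/2)`, `d ∈ D`, `d ≤ X ^ δ`, `p` prime, and to a much weaker statement on the classes to the
moduli `d p` in a sequence of windows `[X, X ^ K]`. For `η = 0` the exponent is the one of the
conjecture. (`D = {1}`: the prime moduli and the zeta function; if `D` is the set of all positive integers
these moduli are a positive proportion of all moduli.)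

If `16 η² + 16 η ≥ 1` (that is `η ≥ (√5 - 2)/4 = 0.0590...`) and `D` is the set of all positive integers,
it is moreover equivalent to the same bound for all but `C X ^ (1 - δ)` of ALL reduced residue classes to
ALL moduli `q ≤ X ^ (1/2)`, and to a bound for the second moment of the (maximal) error term over all of
them.
-/

set_option autoImplicit false

namespace Pool.Agent.Results.MP_9cfc0a_nt.AllClasses

open Filter

/-- `ψ(x; q, a) = ∑_{n ≤ x, n ≡ a (mod q)} Λ(n)`. -/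
noncomputable def psi (x : ℝ) (q a : ℕ) : ℝ :=
  ∑ n ∈ (Finset.Icc 1 ⌊x⌋₊).filter (fun n => n % q = a % q), ArithmeticFunction.vonMangoldt n

/-- The bound of Montgomery's conjecture with exponent `τ` (and constant one) at `(x; q, a)`:
`|ψ(x; q, a) - x / φ(q)| ≤ x ^ τ / q ^ (1/2)`. -/
def Bound (τ x : ℝ) (q a : ℕ) : Prop :=
  |psi x q a - x / (Nat.totient q : ℝ)| ≤ x ^ τ / Real.sqrt (q : ℝ)

/-- All reduced residue classes `(q, b)`, `1 ≤ b ≤ q`, `(b, q) = 1`, to all moduli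
`q ≤ X ^ (1/2)`. -/
def classes (X : ℝ) : Set (ℕ × ℕ) :=
  {y | (y.1 : ℝ) ≤ Real.sqrt X ∧ 1 ≤ y.2 ∧ y.2 ≤ y.1 ∧ Nat.Coprime y.2 y.1}

/-- The classes to the moduli `q = d p ≤ X ^ (1/2)` with `d ∈ D`, `d ≤ X ^ δ` and `p` prime. -/
def primeClasses (D : Set ℕ) (δ X : ℝ) : Set (ℕ × ℕ) :=
  {y | y ∈ classes X ∧ ∃ d ∈ D, (d : ℝ) ≤ X ^ δ ∧ ∃ p : ℕ, p.Prime ∧ y.1 = d * p}

/-- The classes in the set `S` for which the bound fails for some `x` with `q ^ 2 ≤ x ≤ X`. -/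
def exceptional (S : Set (ℕ × ℕ)) (τ X : ℝ) : Set (ℕ × ℕ) :=
  {y | y ∈ S ∧ ∃ x : ℝ, (y.1 : ℝ) ^ 2 ≤ x ∧ x ≤ X ∧ ¬ Bound τ x y.1 y.2}

/-- The pairs `(p, b)`, `p` prime, `d p ≤ x ^ (1/2)`, `1 ≤ b ≤ d p`, `(b, d p) = 1`,
`b ≡ a (mod d)`, for which the bound holds at `(x; d p, b)`. -/
def good (d a : ℕ) (τ x : ℝ) : Set (ℕ × ℕ) :=
  {y | y.1.Prime ∧ ((d * y.1 : ℕ) : ℝ) ≤ Real.sqrt x ∧ 1 ≤ y.2 ∧ y.2 ≤ d * y.1 ∧
    Nat.Coprime y.2 (d * y.1) ∧ y.2 % d = a % d ∧ Bound τ x (d * y.1) y.2}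

/-- For `d ∈ D` no Dirichlet `L`-function modulo `d` vanishes at a point with
`3/4 + η < Re s < 1`. -/
def NoZeros (D : Set ℕ) (η : ℝ) : Prop :=
  ∀ d ∈ D, ∀ [NeZero d], ∀ χ : DirichletCharacter ℂ d, ∀ s : ℂ, 3 / 4 + η < s.re → s.re < 1 →
    DirichletCharacter.LFunction χ s ≠ 0

lemma exceptional_eq (τ X : ℝ) : exceptional (classes X) τ X = Pool.Agent.MC.C1.excAll τ X := by
  ext y
  unfold exceptional classes Bound Pool.Agent.MC.C1.excAll
  simp only [Set.mem_ofPred_eq, not_le]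
  constructor
  · rintro ⟨⟨h2, h3, h4, h5⟩, h6⟩
    exact ⟨h2, h3, h4, h5, h6⟩
  · rintro ⟨h2, h3, h4, h5, h6⟩
    exact ⟨⟨h2, h3, h4, h5⟩, h6⟩

lemma exceptionalP_eq (D : Set ℕ) (δ τ X : ℝ) :
    exceptional (primeClasses D δ X) τ X = Pool.Agent.MC.excU D δ τ X := by
  ext y
  unfold exceptional primeClasses classes Bound Pool.Agent.MC.excU
  simp only [Set.mem_ofPred_eq, not_le]
  constructor
  · rintro ⟨⟨⟨h2, h3, h4, h5⟩, h1⟩, h6⟩
    exact ⟨h1, h2, h3, h4, h5, h6⟩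
  · rintro ⟨h1, h2, h3, h4, h5, h6⟩
    exact ⟨⟨⟨h2, h3, h4, h5⟩, h1⟩, h6⟩

/-- The set of classes is finite (sanity check, not part of the result). -/
lemma classes_finite (X : ℝ) : (classes X).Finite := by
  refine Set.Finite.subset (Finset.finite_toSet
    ((Finset.Icc 0 ⌊Real.sqrt X⌋₊) ×ˢ (Finset.Icc 0 ⌊Real.sqrt X⌋₊))) ?_
  rintro ⟨q, b⟩ ⟨h2, _, h4, _⟩
  simp only at h2 h4
  have h5 : q ≤ ⌊Real.sqrt X⌋₊ := Nat.le_floor h2
  rw [Finset.mem_coe, Finset.mem_product, Finset.mem_Icc, Finset.mem_Icc]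
  exact ⟨⟨Nat.zero_le _, h5⟩, ⟨Nat.zero_le _, by simp only; omega⟩⟩

lemma good_eq (d a : ℕ) (τ x : ℝ) : good d a τ x = Pool.Agent.MC.good d a τ x := by
  ext y
  unfold good Bound Pool.Agent.MC.good Pool.Agent.MC.prs
  simp only [Set.mem_ofPred_eq]
  constructor
  · rintro ⟨h1, h2, h3, h4, h5, h6, h7⟩
    exact ⟨⟨h1, h2, h3, h4, h5, h6⟩, h7⟩
  · rintro ⟨⟨h1, h2, h3, h4, h5, h6⟩, h7⟩
    exact ⟨h1, h2, h3, h4, h5, h6, h7⟩

/-- **Zeros and Montgomery's bound for almost all classes.** Let `D` be a set of positive integers and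
`0 ≤ η < 1/4`. The following are equivalent:

* for `d ∈ D` no Dirichlet `L`-function modulo `d` vanishes at a point with `3/4 + η < Re s < 1`;
* for every `ε > 0` there are `δ > 0` and `C` such that for all `X ≥ 1`, Montgomery's bound with
  exponent `1/2 + η + ε` holds for all `x` with `q ^ 2 ≤ x ≤ X`, for all but at most `C X ^ (1 - δ)`
  of the reduced classes to the moduli `q = d p ≤ X ^ (1/2)`, `d ∈ D`, `d ≤ X ^ δ`, `p` prime;
* for all `d ∈ D`, all `ε, δ > 0` and all `K` there are arbitrarily large `X` such that for all `x` in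
  `[X, X ^ K]` and all reduced classes `a` modulo `d`, the bound holds at `x` for at least
  `x ^ (1 - δ)` of the classes `b ≡ a (mod d)` to moduli `d p ≤ x ^ (1/2)`, `p` prime.

If `1 ≤ 16 η² + 16 η`, the following are also equivalent:

* no Dirichlet `L`-function vanishes at a point with `3/4 + η < Re s < 1`;
* for every `ε > 0` there are `δ > 0` and `C` such that for all `X ≥ 1`, Montgomery's bound with
  exponent `1/2 + η + ε` holds for all `x` with `q ^ 2 ≤ x ≤ X`, for all but at most `C X ^ (1 - δ)`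
  of ALL the reduced classes to ALL moduli `q ≤ X ^ (1/2)`;
* for every `ε > 0` there is `C` such that for all `Y ≥ 1` and every choice of points
  `1 ≤ x(q, a) ≤ Y`, the sum of `|ψ(x(q, a); q, a) - x(q, a)/φ(q)|²` over all reduced classes to all
  moduli `q ≤ Y ^ (1/2)` is at most `C Y ^ (3/2 + 2 η + ε)`. -/
theorem result (D : Set ℕ) (hD : ∀ d ∈ D, 0 < d) (η : ℝ) (hη0 : 0 ≤ η) (hη1 : η < 1 / 4) :
    List.TFAE [
      NoZeros D η,
      ∀ ε : ℝ, 0 < ε → ∃ δ : ℝ, 0 < δ ∧ ∃ C : ℝ, ∀ X : ℝ, 1 ≤ X →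
        ((exceptional (primeClasses D δ X) (1 / 2 + η + ε) X).ncard : ℝ) ≤ C * X ^ (1 - δ),
      ∀ d ∈ D, ∀ ε : ℝ, 0 < ε → ∀ δ : ℝ, 0 < δ → ∀ K : ℕ, ∃ᶠ X : ℝ in atTop, ∀ x : ℝ,
        X ≤ x → x ≤ X ^ K → ∀ a : ℕ, Nat.Coprime a d →
        x ^ (1 - δ) ≤ ((good d a (1 / 2 + η + ε) x).ncard : ℝ)] ∧
    (1 ≤ 16 * η ^ 2 + 16 * η → List.TFAE [
      NoZeros Set.univ η,
      ∀ ε : ℝ, 0 < ε → ∃ δ : ℝ, 0 < δ ∧ ∃ C : ℝ, ∀ X : ℝ, 1 ≤ X →
        ((exceptional (classes X) (1 / 2 + η + ε) X).ncard : ℝ) ≤ C * X ^ (1 - δ),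
      ∀ ε : ℝ, 0 < ε → ∃ C : ℝ, ∀ Y : ℝ, 1 ≤ Y → ∀ x : ℕ → ℕ → ℝ,
        (∀ q a, 1 ≤ x q a ∧ x q a ≤ Y) →
        ∑ q ∈ Finset.Icc 1 ⌊Real.sqrt Y⌋₊,
          ∑ a ∈ (Finset.Icc 1 q).filter (fun a => Nat.Coprime a q),
            (psi (x q a) q a - x q a / (Nat.totient q : ℝ)) ^ 2 ≤
              C * Y ^ (3 / 2 + 2 * η + ε)]) := by
  have h12 : ∀ D : Set ℕ, (∀ d ∈ D, 0 < d) → NoZeros D η →
      ∀ ε : ℝ, 0 < ε → ∃ δ : ℝ, 0 < δ ∧ ∃ C : ℝ, ∀ X : ℝ, 1 ≤ X →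
      ((exceptional (primeClasses D δ X) (1 / 2 + η + ε) X).ncard : ℝ) ≤ C * X ^ (1 - δ) := by
    intro D hD h ε hε
    obtain ⟨δ, hδ, C, hC⟩ := Pool.Agent.MC.excU_bound D hD η hη0 hη1 (fun d hd _ => h d hd) ε hε
    refine ⟨δ, hδ, C, fun X hX => ?_⟩
    rw [exceptionalP_eq]
    exact hC X hX
  have h23 : ∀ D : Set ℕ, (∀ d ∈ D, 0 < d) →
      (∀ ε : ℝ, 0 < ε → ∃ δ : ℝ, 0 < δ ∧ ∃ C : ℝ, ∀ X : ℝ, 1 ≤ X →
      ((exceptional (primeClasses D δ X) (1 / 2 + η + ε) X).ncard : ℝ) ≤ C * X ^ (1 - δ)) →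
      ∀ d ∈ D, ∀ ε : ℝ, 0 < ε → ∀ δ : ℝ, 0 < δ → ∀ K : ℕ, ∃ᶠ X : ℝ in atTop, ∀ x : ℝ,
        X ≤ x → x ≤ X ^ K → ∀ a : ℕ, Nat.Coprime a d →
        x ^ (1 - δ) ≤ ((good d a (1 / 2 + η + ε) x).ncard : ℝ) := by
    intro D hD h d hd ε hε δ hδ K
    obtain ⟨δ₀, hδ₀, C, hC⟩ := h ε hε
    have h1 := Pool.Agent.MC.good_of_excMax' d (hD d hd) (1 / 2 + η + ε) δ₀ C hδ₀ (by
      filter_upwards [Pool.Agent.MC.excMax_le_excU D δ₀ (1 / 2 + η + ε) hδ₀ d hd (hD d hd),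
        eventually_ge_atTop 1] with X hX1 hX2
      have h2 := hC X hX2
      rw [exceptionalP_eq] at h2
      exact le_trans (by exact_mod_cast hX1) h2) δ hδ
    obtain ⟨x₁, hx₁⟩ := Filter.eventually_atTop.mp h1
    refine Filter.Eventually.frequently ?_
    filter_upwards [eventually_ge_atTop x₁] with X hX x hx _ a ha
    rw [good_eq]
    exact hx₁ x (by linarith) a ha
  have h31 : ∀ D : Set ℕ, (∀ d ∈ D, 0 < d) →
      (∀ d ∈ D, ∀ ε : ℝ, 0 < ε → ∀ δ : ℝ, 0 < δ → ∀ K : ℕ, ∃ᶠ X : ℝ in atTop,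
      ∀ x : ℝ, X ≤ x → x ≤ X ^ K → ∀ a : ℕ, Nat.Coprime a d →
        x ^ (1 - δ) ≤ ((good d a (1 / 2 + η + ε) x).ncard : ℝ)) → NoZeros D η := by
    intro D hD h d hd _
    refine Pool.Agent.MC.ZF_of_good_windows d η hη0 fun ε hε δ hδ K => ?_
    refine (h d hd ε hε δ hδ K).mono fun X hX x hx1 hx2 a ha => ?_
    rw [← good_eq]
    exact hX x hx1 hx2 a ha
  constructor
  · tfae_have 1 → 2 := h12 D hD
    tfae_have 2 → 3 := h23 D hD
    tfae_have 3 → 1 := h31 D hD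
    tfae_finish
  · intro hη
    tfae_have 1 → 3 := by
      intro h
      have hI : Pool.Agent.MC.C1.Inc η :=
        Pool.Agent.MC.C2.inc_of_zf η hη0 hη hη1 fun r _ => h r (Set.mem_univ r)
      exact Pool.Agent.MC.C1.max2_of_inc η hη0 hη1.le hI
    tfae_have 3 → 2 := by
      intro h ε hε
      have hM : Pool.Agent.MC.C1.Max2 η := h
      obtain ⟨δ, hδ, C, hC⟩ := Pool.Agent.MC.C1.exc_of_max2 η hη0 hη1.le hM ε hε
      refine ⟨δ, hδ, C, fun X hX => ?_⟩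
      rw [exceptional_eq]
      exact hC X hX
    tfae_have 2 → 1 := by
      intro h
      have h4 : NoZeros {d | 0 < d} η := by
        refine h31 _ (fun d hd => hd) (h23 _ (fun d hd => hd) fun ε hε => ?_)
        obtain ⟨δ, hδ, C, hC⟩ := h ε hε
        refine ⟨δ, hδ, C, fun X hX => le_trans ?_ (hC X hX)⟩
        have hfin : (exceptional (classes X) (1 / 2 + η + ε) X).Finite :=
          (classes_finite X).subset fun y hy => hy.1
        have hsub : exceptional (primeClasses {d | 0 < d} δ X) (1 / 2 + η + ε) X ⊆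
            exceptional (classes X) (1 / 2 + η + ε) X := fun y hy => ⟨hy.1.1, hy.2⟩
        exact_mod_cast Set.ncard_le_ncard hsub hfin
      intro d _ _
      exact h4 d (Nat.pos_of_ne_zero (NeZero.ne d))
    tfae_finish

end Pool.Agent.Results.MP_9cfc0a_nt.AllClasses
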