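import Mathlib
import Pool.Agent.Lib.MP_9cfc0a_nt.EMFinal

set_option autoImplicit false

namespace Pool.Agent.Results.MP_9cfc0a_nt.EveryCharacter

/-- `ψ(x, χ)`: the sum of `χ(n) Λ(n)` over `1 ≤ n ≤ x`. -/
noncomputable def psiChar {q : ℕ} (χ : DirichletCharacter ℂ q) (x : ℝ) : ℂ :=
  ∑ n ∈ Finset.Icc 1 ⌊x⌋₊, χ n * ((ArithmeticFunction.vonMangoldt n : ℝ) : ℂ)

/-- For every Dirichlet character `χ` mod `q` of conductor at least `N` and every real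
`X ≥ max (q, X₀)`, the logarithmic mean of `|ψ(x, χ)| / x^(1/2)` over the window `[X, X^K]` is at
least `X^(-ε)`. -/
theorem result : ∃ N : ℕ, ∀ ε : ℝ, 0 < ε → ∃ (K : ℕ) (X₀ : ℝ),
    ∀ (q : ℕ) [NeZero q] (χ : DirichletCharacter ℂ q) (X : ℝ), N ≤ χ.conductor →
      (q : ℝ) ≤ X → X₀ ≤ X →
      X ^ (-ε) ≤ ∫ x in X..(X ^ K), ‖psiChar χ x‖ / x ^ (3 / 2 : ℝ) := by
  obtain ⟨N, h⟩ := Pool.Agent.EM.main
  refine ⟨N, fun ε hε => ?_⟩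
  obtain ⟨K, X₀, h1⟩ := h ε hε
  exact ⟨K, X₀, fun q _ χ X hN hq hX => (h1 q X hq hX).2.2 χ hN⟩

end Pool.Agent.Results.MP_9cfc0a_nt.EveryCharacter
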