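import Mathlib
import Pool.Agent.Lib.MP_9cfc0a_nt.EMFinal

set_option autoImplicit false

namespace Pool.Agent.Results.MP_9cfc0a_nt.EveryModulus

/-- `ψ(x; q, a)`: the sum of `Λ(n)` over `1 ≤ n ≤ x` with `n ≡ a (mod q)`. -/
noncomputable def psi (x : ℝ) (q a : ℕ) : ℝ :=
  ∑ n ∈ (Finset.Icc 1 ⌊x⌋₊).filter (fun n => n % q = a % q), ArithmeticFunction.vonMangoldt n

/-- `V(x; q)`: the sum of `(ψ(x; q, a) - x / φ(q))²` over the reduced residues `1 ≤ a ≤ q`. -/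
noncomputable def V (x : ℝ) (q : ℕ) : ℝ :=
  ∑ a ∈ (Finset.Icc 1 q).filter (fun a => Nat.Coprime a q),
    (psi x q a - x / (Nat.totient q : ℝ)) ^ 2

/-- Consequence for a single residue class: for every modulus `q ≥ N` and every `X ≥ q` some
`x ∈ [X, X^K]` and some `a` coprime to `q` have `|ψ(x; q, a) - x / φ(q)| ≥ (x / q)^(1/2) X^(-ε)`. -/
theorem one_class : ∃ N : ℕ, ∀ ε : ℝ, 0 < ε → ∃ (K : ℕ) (X₀ : ℝ),
    ∀ (q : ℕ) (X : ℝ), N ≤ q → (q : ℝ) ≤ X → X₀ ≤ X →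
      ∃ x : ℝ, X ≤ x ∧ x ≤ X ^ K ∧ ∃ a : ℕ, 1 ≤ a ∧ a ≤ q ∧ Nat.Coprime a q ∧
        (x / q) ^ (1 / 2 : ℝ) * X ^ (-ε) ≤ |psi x q a - x / (Nat.totient q : ℝ)| := by
  obtain ⟨N, h⟩ := Pool.Agent.EM.main
  refine ⟨max N 1, fun ε hε => ?_⟩
  obtain ⟨K, X₀, h1⟩ := h ε hε
  refine ⟨K, X₀, fun q X hN hq hX => ?_⟩
  have : NeZero q := ⟨by have := le_trans (le_max_right N 1) hN; omega⟩
  exact (h1 q X hq hX).2.1 (le_trans (le_max_left _ _) hN)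

/-- For every modulus `q ≥ N` and every real `X ≥ max (q, X₀)`, the logarithmic mean of
`V(x; q) / x` over the window `[X, X^K]` is at least `X^(-ε)`. -/
theorem result : ∃ N : ℕ, ∀ ε : ℝ, 0 < ε → ∃ (K : ℕ) (X₀ : ℝ),
    ∀ (q : ℕ) (X : ℝ), N ≤ q → (q : ℝ) ≤ X → X₀ ≤ X →
      X ^ (-ε) ≤ ∫ x in X..(X ^ K), V x q / x ^ 2 := by
  obtain ⟨N, h⟩ := Pool.Agent.EM.main
  refine ⟨max N 1, fun ε hε => ?_⟩
  obtain ⟨K, X₀, h1⟩ := h ε hε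
  refine ⟨K, X₀, fun q X hN hq hX => ?_⟩
  have : NeZero q := ⟨by have := le_trans (le_max_right N 1) hN; omega⟩
  exact (h1 q X hq hX).1 (le_trans (le_max_left _ _) hN)

end Pool.Agent.Results.MP_9cfc0a_nt.EveryModulus
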