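import Mathlib
import Pool.Agent.Lib.MP_9cfc0a_nt.SW.RB2

set_option autoImplicit false

namespace Pool.Agent.Results.MP_9cfc0a_nt.EveryWindow

open MeasureTheory

/-- `ψ(x; q, a)`: the sum of `Λ(n)` over `1 ≤ n ≤ x` with `n ≡ a (mod q)`. -/
noncomputable def psi (x : ℝ) (q a : ℕ) : ℝ :=
  ∑ n ∈ (Finset.Icc 1 ⌊x⌋₊).filter (fun n => n % q = a % q), ArithmeticFunction.vonMangoldt n

/-- `V(x; q)`: the sum of `(ψ(x; q, a) - x / φ(q))²` over the reduced residues `1 ≤ a ≤ q`. -/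
noncomputable def V (x : ℝ) (q : ℕ) : ℝ :=
  ∑ a ∈ (Finset.Icc 1 q).filter (fun a => Nat.Coprime a q),
    (psi x q a - x / (Nat.totient q : ℝ)) ^ 2

/-- `V_c(x; q)`: half the sum of `(ψ(x; q, a) - ψ(x; q, ca))²` over the reduced residues `1 ≤ a ≤ q`. -/
noncomputable def Vc (x : ℝ) (q c : ℕ) : ℝ :=
  1 / 2 * ∑ a ∈ (Finset.Icc 1 q).filter (fun a => Nat.Coprime a q), (psi x q a - psi x q (c * a)) ^ 2

/-- `ψ(x, χ)`: the sum of `χ(n) Λ(n)` over `1 ≤ n ≤ x`. -/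
noncomputable def psiChar {q : ℕ} (χ : DirichletCharacter ℂ q) (x : ℝ) : ℂ :=
  ∑ n ∈ Finset.Icc 1 ⌊x⌋₊, χ n * ((ArithmeticFunction.vonMangoldt n : ℝ) : ℂ)

/-- The simple zeros `ρ` of `L(s, χ)` on the line `Re s = 1/2` with `|Im ρ| ≤ T`. -/
def simpleZeros {q : ℕ} [NeZero q] (χ : DirichletCharacter ℂ q) (T : ℝ) : Set ℂ :=
  {ρ : ℂ | ρ.re = 1 / 2 ∧ |ρ.im| ≤ T ∧ χ.LFunction ρ = 0 ∧ deriv χ.LFunction ρ ≠ 0}

/-- The sum of `1/|ρ|²` over the simple zeros on the line with `|Im ρ| ≤ T`. -/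
noncomputable def simpleSum {q : ℕ} [NeZero q] (χ : DirichletCharacter ℂ q) (T : ℝ) : ℝ :=
  ∑ᶠ ρ ∈ simpleZeros χ T, 1 / ‖ρ‖ ^ 2

/-- `σ`: the mean of `simpleSum χ T` over all characters modulo `q`, divided by `log q`. -/
noncomputable def sigma (q : ℕ) [NeZero q] (T : ℝ) : ℝ :=
  (∑ χ : DirichletCharacter ℂ q, simpleSum χ T) / ((Nat.totient q : ℝ) * Real.log q)

/-- `M_A(X)[g]`: the mean of `g` over the window `[X q^(-A), X q^A]` with the weight `(1 - |log(x/X)|/(A log q)) dx/x²`, normalized so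
that Hooley's prediction `x log q` has the mean `1`. -/
noncomputable def mean (q : ℕ) (A X : ℝ) (g : ℝ → ℝ) : ℝ :=
  1 / (A * Real.log q ^ 2) * ∫ x in (X / (q : ℝ) ^ A)..(X * (q : ℝ) ^ A),
    (1 - |Real.log (x / X)| / (A * Real.log q)) * g x / x ^ 2

/-- `D_A(q)`: the excess of `V` over Hooley's prediction in the mean over `[q, q^A]`. -/
noncomputable def excess (q : ℕ) (A : ℝ) : ℝ :=
  2 / (A * Real.log q ^ 2) * ∫ x in (q : ℝ)..((q : ℝ) ^ A),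
    (1 - Real.log x / (A * Real.log q)) * (V x q - x * Real.log q) / x ^ 2

/-- For every `ε > 0` there is `T₀` such that for every `T ≥ T₀` ALL large moduli `q` have the following properties, with `σ = sigma q T`;
they hold in EVERY window `[X q^(-A), X q^A]` with `q^A ≤ X` and `X q^A ≤ exp((log q)^(3/2 - ε))`.
(1) `A ≤ 1`: the mean of `V` is at least `2 - 1/A - A/3 + 2 (1 - σ) - ε` (for `A = 1`: `2/3 + 2 (1 - σ) - ε`, and `σ ≤ 1 + ε`), and the error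
`ψ(x; q, a) - x/φ(q)` has at least the size `((2 - 1/A - A/3 - ε) x log q/φ(q))^(1/2)` for some `x` in the window and some reduced class `a`.
(2) The same (without `σ`) for the race variance `V_c` and EVERY ratio `c` prime to `q`, `c ≢ 1 (mod q)`: `ψ(x; q, a) - ψ(x; q, ca)` has at
least the size `(2 (2 - 1/A - A/3 - ε) x log q/φ(q))^(1/2)` for some `x` in the window and some reduced class `a`.
(3) `A ≥ 1`: the mean of `V` is at least `1 - 1/(3A²) + 2 (1 - σ) - D_A(q) - ε`.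
(4) For every `c` in `[0, 2/3]` at least `(1 - 1/(3(1-c)) - ε) φ(q)` characters modulo `q` have a mean of `|ψ(x, χ)|²` that is at least `c` in
EVERY window `[X/q, Xq]`. -/
theorem result (ε : ℝ) (hε : 0 < ε) : ∃ T₀ : ℝ, ∀ T : ℝ, T₀ ≤ T → ∃ q₀ : ℕ,
    ∀ (q : ℕ) [NeZero q], q₀ ≤ q → sigma q T ≤ 1 + ε ∧
      (∀ A X : ℝ, 0 < A → A ≤ 1 → (q : ℝ) ^ A ≤ X → X * (q : ℝ) ^ A ≤ Real.exp (Real.log q ^ (3 / 2 - ε)) →
        2 - 1 / A - A / 3 + 2 * (1 - sigma q T) - ε ≤ mean q A X (fun x => V x q) ∧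
        (∃ (x : ℝ) (a : ℕ), X / (q : ℝ) ^ A ≤ x ∧ x ≤ X * (q : ℝ) ^ A ∧ Nat.Coprime a q ∧
          (2 - 1 / A - A / 3 - ε) * (x * Real.log q / (Nat.totient q : ℝ)) ≤
            (psi x q a - x / (Nat.totient q : ℝ)) ^ 2) ∧
        ∀ c : ℕ, Nat.Coprime c q → ¬ c % q = 1 % q →
          2 - 1 / A - A / 3 - ε ≤ mean q A X (fun x => Vc x q c) ∧
          ∃ (x : ℝ) (a : ℕ), X / (q : ℝ) ^ A ≤ x ∧ x ≤ X * (q : ℝ) ^ A ∧ Nat.Coprime a q ∧
            2 * (2 - 1 / A - A / 3 - ε) * (x * Real.log q / (Nat.totient q : ℝ)) ≤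
              (psi x q a - psi x q (c * a)) ^ 2) ∧
      (∀ A X : ℝ, 1 ≤ A → (q : ℝ) ^ A ≤ X → X * (q : ℝ) ^ A ≤ Real.exp (Real.log q ^ (3 / 2 - ε)) →
        1 - 1 / (3 * A ^ 2) + 2 * (1 - sigma q T) - excess q A - ε ≤ mean q A X (fun x => V x q)) ∧
      ∀ c : ℝ, 0 ≤ c → c ≤ 2 / 3 → (1 - 1 / (3 * (1 - c)) - ε) * (Nat.totient q : ℝ) ≤
        (Set.ncard {χ : DirichletCharacter ℂ q | ∀ X : ℝ, (q : ℝ) ≤ X →
          X * q ≤ Real.exp (Real.log q ^ (3 / 2 - ε)) →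
            c ≤ mean q 1 X (fun x => ‖psiChar χ x‖ ^ 2)} : ℝ) := by
  obtain ⟨T₀, h⟩ := Pool.Agent.SW.main ε hε
  refine ⟨T₀, fun T hT => ?_⟩
  obtain ⟨q₀, _, H⟩ := h T hT
  refine ⟨q₀, fun q _ hq => ?_⟩
  obtain ⟨h1, h2, h3, h4⟩ := H q hq
  exact ⟨h1.2, h2, h3, h4⟩

end Pool.Agent.Results.MP_9cfc0a_nt.EveryWindow
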