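import Mathlib
import Pool.Agent.Lib.MP_9cfc0a_nt.Mg.G075

set_option autoImplicit false

namespace Pool.Agent.Results.MP_9cfc0a_nt.NewPartAlmostAll

open Finset

/-- `ψ(x; q, a)`, the sum of the von Mangoldt function over `n ≤ x`, `n ≡ a (mod q)`. -/
noncomputable def psi (x : ℝ) (q a : ℕ) : ℝ :=
  ∑ n ∈ (Finset.Icc 1 ⌊x⌋₊).filter (fun n => n % q = a % q), ArithmeticFunction.vonMangoldt n

/-- the error term `E(x; q, a) = ψ(x; q, a) - x / φ(q)` -/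
noncomputable def E (x : ℝ) (q a : ℕ) : ℝ := psi x q a - x / (Nat.totient q : ℝ)

/-- the new part of the error term at level `q`: the sum over `d ∣ q` of
`μ(q/d) (d/q) E(x; d, a)` -/
noncomputable def Enew (x : ℝ) (q a : ℕ) : ℝ :=
  ∑ d ∈ q.divisors, (ArithmeticFunction.moebius (q / d) : ℝ) * ((d : ℝ) / (q : ℝ)) * E x d a

/-- The error term is recovered from its new parts (sanity check, not part of the result). -/
lemma E_eq_sum_Enew (x : ℝ) (q a : ℕ) (hq : 0 < q) :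
    E x q a = ∑ d ∈ q.divisors, ((d : ℝ) / (q : ℝ)) * Enew x d a :=
  Pool.Agent.MC.errR_eq_sum_errNew x q a hq

/-- the pairs `(q, a)` with `q ≤ X ^ (1/2)`, `1 ≤ a ≤ q`, `(a, q) = 1` for which
`|Enew(x; q, a)| > lam * (x/q) ^ (1/2)` for some `x` with `q ^ 2 ≤ x ≤ X` -/
def exceptional (X lam : ℝ) : Set (ℕ × ℕ) :=
  {p | 1 ≤ p.2 ∧ p.2 ≤ p.1 ∧ Nat.Coprime p.2 p.1 ∧ (p.1 : ℝ) ≤ Real.sqrt X ∧
    ∃ x : ℝ, (p.1 : ℝ) ^ 2 ≤ x ∧ x ≤ X ∧ lam * Real.sqrt (x / p.1) < |Enew x p.1 p.2|}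

/-- Weak type bound: for all `X ≥ 2` and `lam > 0` the set of exceptional pairs is finite and has at
most `24000 X (log X) ^ 3 / lam ^ 2` elements. -/
theorem result : ∀ X : ℝ, 2 ≤ X → ∀ lam : ℝ, 0 < lam →
    (exceptional X lam).Finite ∧
    ((exceptional X lam).ncard : ℝ) ≤ 24000 * X * (Real.log X) ^ 3 / lam ^ 2 :=
  fun X hX lam hlam =>
    ⟨Pool.Agent.MC.excSet_finite X lam, Pool.Agent.MC.excSet_bound X hX lam hlam⟩

end Pool.Agent.Results.MP_9cfc0a_nt.NewPartAlmostAll
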