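import Mathlib
import Pool.Agent.Lib.MP_9cfc0a_nt.SX.XA5

set_option autoImplicit false

namespace Pool.Agent.Results.MP_9cfc0a_nt.SharpOrder

open MeasureTheory

/-- `ψ(x; q, a)`: the sum of `Λ(n)` over `1 ≤ n ≤ x` with `n ≡ a (mod q)`. -/
noncomputable def psi (x : ℝ) (q a : ℕ) : ℝ :=
  ∑ n ∈ (Finset.Icc 1 ⌊x⌋₊).filter (fun n => n % q = a % q), ArithmeticFunction.vonMangoldt n

/-- `V(x; q)`: the sum of `(ψ(x; q, a) - x / φ(q))²` over the reduced residues `1 ≤ a ≤ q`. -/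
noncomputable def V (x : ℝ) (q : ℕ) : ℝ :=
  ∑ a ∈ (Finset.Icc 1 q).filter (fun a => Nat.Coprime a q),
    (psi x q a - x / (Nat.totient q : ℝ)) ^ 2

/-- `ψ(x, χ)`: the sum of `χ(n) Λ(n)` over `1 ≤ n ≤ x`. -/
noncomputable def psiChar {q : ℕ} (χ : DirichletCharacter ℂ q) (x : ℝ) : ℂ :=
  ∑ n ∈ Finset.Icc 1 ⌊x⌋₊, χ n * ((ArithmeticFunction.vonMangoldt n : ℝ) : ℂ)

theorem loss_eq (X η l : ℝ) (hX : 0 < X) : X ^ (-(η / l)) = Real.exp (-(η * Real.log X / l)) := by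
  rw [Real.rpow_def_of_pos hX]
  congr 1
  ring

theorem window_le (q : ℕ) (X δ : ℝ) (hδ : 0 < δ) (hq : 3 ≤ q) (hX : (q : ℝ) ≤ X) :
    X ≤ X ^ (1 + δ) * (q : ℝ) ^ 12 := by
  have h3 : (3 : ℝ) ≤ q := by exact_mod_cast hq
  have hX1 : 1 ≤ X := by linarith
  have h1 : (1 : ℝ) ≤ (q : ℝ) ^ 12 := one_le_pow₀ (by linarith)
  calc X = X ^ (1 : ℝ) := (Real.rpow_one X).symm
    _ ≤ X ^ (1 + δ) := Real.rpow_le_rpow_of_exponent_le hX1 (by linarith)
    _ ≤ X ^ (1 + δ) * (q : ℝ) ^ 12 := le_mul_of_one_le_right (by positivity) h1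

/-- The statement for the variance. -/
theorem variance (η δ : ℝ) (hη : 0 < η) (hδ : 0 < δ) : ∃ c : ℝ, 0 < c ∧ ∃ q₀ : ℕ,
    ∀ q : ℕ, q₀ ≤ q → ∀ X : ℝ, (q : ℝ) ≤ X →
      c * X ^ (-(η / Real.log q)) * (Real.log q) ^ 2 ≤
        ∫ x in X..(X ^ (1 + δ) * (q : ℝ) ^ 12), V x q / x ^ 2 := by
  obtain ⟨c, hc, q₀, hq₀, h⟩ := Pool.Agent.SO.variance_sharp_x η δ hη hδ
  refine ⟨c, hc, q₀, fun q hq X hX => ?_⟩
  have h3 : (3 : ℝ) ≤ q := by exact_mod_cast hq₀.trans hq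
  have hX0 : 0 < X := by linarith
  rw [intervalIntegral.integral_of_le (window_le q X δ hδ (hq₀.trans hq) hX), loss_eq X η _ hX0]
  exact h q hq X hX

/-- The statement for the characters. -/
theorem characters (ε η δ : ℝ) (hε : 0 < ε) (hη : 0 < η) (hδ : 0 < δ) : ∃ c : ℝ, 0 < c ∧
    ∃ q₀ : ℕ, ∀ (q : ℕ) [NeZero q], q₀ ≤ q → ∃ S : Finset (DirichletCharacter ℂ q),
      (1 - ε) * (Nat.totient q : ℝ) ≤ (S.card : ℝ) ∧
      ∀ χ ∈ S, ∀ X : ℝ, (q : ℝ) ≤ X →
        c * X ^ (-(η / Real.log q)) * (Real.log q) ^ 2 ≤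
          ∫ x in X..(X ^ (1 + δ) * (q : ℝ) ^ 12), ‖psiChar χ x‖ ^ 2 / x ^ 2 := by
  obtain ⟨c, hc, q₀, hq₀, h⟩ := Pool.Agent.SO.sharp_order_x ε η δ hε hη hδ
  refine ⟨c, hc, q₀, fun q _ hq => ?_⟩
  obtain ⟨S, hS1, _, hS3⟩ := h q hq
  refine ⟨S, hS1, fun χ hχ X hX => ?_⟩
  have h3 : (3 : ℝ) ≤ q := by exact_mod_cast hq₀.trans hq
  have hX0 : 0 < X := by linarith
  rw [intervalIntegral.integral_of_le (window_le q X δ hδ (hq₀.trans hq) hX), loss_eq X η _ hX0]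
  exact hS3 χ hχ X hX

/-- Consequence for a single residue class. -/
theorem one_class (η δ : ℝ) (hη : 0 < η) (hδ : 0 < δ) : ∃ c : ℝ, 0 < c ∧ ∃ q₀ : ℕ,
    ∀ q : ℕ, q₀ ≤ q → ∀ X : ℝ, (q : ℝ) ≤ X →
      ∃ x : ℝ, X ≤ x ∧ x ≤ X ^ (1 + δ) * (q : ℝ) ^ 12 ∧
        ∃ a : ℕ, 1 ≤ a ∧ a ≤ q ∧ Nat.Coprime a q ∧
        c * X ^ (-(η / Real.log q)) * Real.sqrt (x * Real.log q / (Nat.totient q : ℝ)) ≤
          |psi x q a - x / (Nat.totient q : ℝ)| := by
  obtain ⟨c, hc, q₀, h⟩ := variance η δ hη hδ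
  set M : ℝ := δ / η + 12 with hM
  have hM0 : 0 < M := by positivity
  refine ⟨Real.sqrt (c / (2 * M)), Real.sqrt_pos.mpr (by positivity), max q₀ 3,
    fun q hq X hX => ?_⟩
  have hq3 : 3 ≤ q := (le_max_right _ _).trans hq
  have h3 : (3 : ℝ) ≤ q := by exact_mod_cast hq3
  have hX0 : 0 < X := by linarith
  have hX1 : 1 ≤ X := by linarith
  set Y : ℝ := X ^ (1 + δ) * (q : ℝ) ^ 12 with hY
  have hXY : X ≤ Y := window_le q X δ hδ hq3 hX
  have hY0 : 0 < Y := by linarith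
  have hlog : 0 < Real.log q := Real.log_pos (by linarith)
  have hφ : (0 : ℝ) < (Nat.totient q : ℝ) := by
    exact_mod_cast Nat.totient_pos.mpr (by omega)
  have hmain := h q ((le_max_left _ _).trans hq) X hX
  set E : ℝ := X ^ (-(η / Real.log q)) with hE
  have hE0 : 0 < E := by positivity
  by_contra hcon
  push Not at hcon
  have hcard : (((Finset.Icc 1 q).filter (fun a => Nat.Coprime a q)).card : ℝ) =
      (Nat.totient q : ℝ) := by
    have h4 := Nat.filter_coprime_Ico_eq_totient q 1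
    have h5 : (Finset.Icc 1 q).filter (fun a => Nat.Coprime a q) =
        (Finset.Ico 1 (1 + q)).filter (fun a => Nat.Coprime q a) := by
      ext a
      simp only [Finset.mem_filter, Finset.mem_Icc, Finset.mem_Ico, Nat.coprime_comm]
      constructor
      · rintro ⟨⟨h6, h7⟩, h8⟩
        exact ⟨⟨h6, by omega⟩, h8⟩
      · rintro ⟨⟨h6, h7⟩, h8⟩
        exact ⟨⟨h6, by omega⟩, h8⟩
    rw [h5, h4]
  have hle : ∀ x ∈ Set.Ioc X Y,
      V x q / x ^ 2 ≤ c / (2 * M) * E ^ 2 * Real.log q * (1 / x) := by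
    intro x hx
    have hx0 : 0 < x := hX0.trans hx.1
    have hV : V x q ≤ ∑ a ∈ (Finset.Icc 1 q).filter (fun a => Nat.Coprime a q),
        c / (2 * M) * E ^ 2 * (x * Real.log q / (Nat.totient q : ℝ)) := by
      refine Finset.sum_le_sum fun a ha => ?_
      rw [Finset.mem_filter, Finset.mem_Icc] at ha
      have h4 := (hcon x hx.1.le hx.2 a ha.1.1 ha.1.2 ha.2).le
      have h5 : 0 ≤ x * Real.log q / (Nat.totient q : ℝ) := by positivity
      rw [← sq_abs]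
      calc |psi x q a - x / (Nat.totient q : ℝ)| ^ 2
          ≤ (Real.sqrt (c / (2 * M)) * E *
              Real.sqrt (x * Real.log q / (Nat.totient q : ℝ))) ^ 2 :=
            pow_le_pow_left₀ (abs_nonneg _) h4 2
        _ = _ := by
            rw [mul_pow, mul_pow, Real.sq_sqrt (by positivity), Real.sq_sqrt h5]
    rw [Finset.sum_const, nsmul_eq_mul, hcard] at hV
    rw [div_le_iff₀ (by positivity)]
    refine hV.trans (le_of_eq ?_)
    field_simp
  have hinvI : IntegrableOn (fun x : ℝ => 1 / x) (Set.Ioc X Y) := by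
    rw [← intervalIntegrable_iff_integrableOn_Ioc_of_le hXY]
    refine intervalIntegral.intervalIntegrable_one_div (fun x hx => ?_) continuousOn_id
    rw [Set.uIcc_of_le hXY] at hx
    have := hx.1
    exact ne_of_gt (by linarith : 0 < x)
  have hinvint : ∫ x in Set.Ioc X Y, 1 / x = δ * Real.log X + 12 * Real.log q := by
    rw [← intervalIntegral.integral_of_le hXY, integral_one_div_of_pos hX0 hY0,
      Real.log_div hY0.ne' hX0.ne', hY, Real.log_mul (by positivity) (by positivity),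
      Real.log_rpow hX0, Real.log_pow]
    push_cast
    ring
  rw [intervalIntegral.integral_of_le hXY] at hmain
  have h4 : ∫ x in Set.Ioc X Y, V x q / x ^ 2 ≤
      c / (2 * M) * E ^ 2 * Real.log q * (δ * Real.log X + 12 * Real.log q) := by
    rw [← hinvint, ← integral_const_mul]
    exact setIntegral_mono_on (Pool.Agent.EM.integrable_V_window q X _ hX1)
      (hinvI.const_mul _) measurableSet_Ioc hle
  -- `E (δ log X + 12 log q) ≤ M log q`
  have h5 : E * (δ * Real.log X + 12 * Real.log q) ≤ M * Real.log q := by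
    have hE1 : E ≤ 1 := by
      rw [hE, Real.rpow_neg hX0.le]
      exact inv_le_one_of_one_le₀ (Real.one_le_rpow hX1 (by positivity))
    have h6 : E * (η * Real.log X / Real.log q) ≤ 1 := by
      rw [hE, loss_eq X η _ hX0, Real.exp_neg]
      have h7 := Real.add_one_le_exp (η * Real.log X / Real.log q)
      rw [inv_mul_le_iff₀ (Real.exp_pos _), mul_one]
      linarith
    have h7 : E * (δ * Real.log X) = E * (η * Real.log X / Real.log q) * (δ / η * Real.log q) := by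
      field_simp
    have h8 : 0 ≤ δ / η * Real.log q := by positivity
    calc E * (δ * Real.log X + 12 * Real.log q)
        = E * (η * Real.log X / Real.log q) * (δ / η * Real.log q) + E * (12 * Real.log q) := by
          rw [mul_add, h7]
      _ ≤ 1 * (δ / η * Real.log q) + 1 * (12 * Real.log q) := by gcongr
      _ = M * Real.log q := by rw [hM]; ring
  have h6 : c / (2 * M) * E ^ 2 * Real.log q * (δ * Real.log X + 12 * Real.log q) ≤
      c / 2 * E * (Real.log q) ^ 2 := by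
    calc c / (2 * M) * E ^ 2 * Real.log q * (δ * Real.log X + 12 * Real.log q)
        = c / (2 * M) * E * Real.log q * (E * (δ * Real.log X + 12 * Real.log q)) := by ring
      _ ≤ c / (2 * M) * E * Real.log q * (M * Real.log q) := by gcongr
      _ = c / 2 * E * (Real.log q) ^ 2 := by field_simp
  have h7 : 0 < c * E * (Real.log q) ^ 2 := by positivity
  nlinarith

/-- For all `ε, η, δ > 0` there are `c > 0` and `q₀` such that every modulus `q ≥ q₀` has a set `S` of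
at least `(1 - ε) φ(q)` characters such that for every real `X ≥ q`, with the window
`W = [X, X^(1+δ) q^12]` and the factor `E = X^(-η / log q)`:
the integral of `|ψ(x, χ)|² / x²` over `W` is at least `c E (log q)²` for all `χ` in `S`; the integral
of `V(x; q) / x²` over `W` is at least `c E (log q)²`; and some `x` in `W` and some `a` coprime to `q`
have `|ψ(x; q, a) - x / φ(q)| ≥ c E (x log q / φ(q))^(1/2)`. For `q ≤ X ≤ q^B` the factor `E` is at least
the constant `exp (-η B)`, and with `δ = 1 / B` the window is inside `[X, X q^13]`. -/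
theorem result (ε η δ : ℝ) (hε : 0 < ε) (hη : 0 < η) (hδ : 0 < δ) : ∃ c : ℝ, 0 < c ∧ ∃ q₀ : ℕ,
    ∀ (q : ℕ) [NeZero q], q₀ ≤ q → ∃ S : Finset (DirichletCharacter ℂ q),
      (1 - ε) * (Nat.totient q : ℝ) ≤ (S.card : ℝ) ∧
      ∀ X : ℝ, (q : ℝ) ≤ X →
        (∀ χ ∈ S, c * X ^ (-(η / Real.log q)) * (Real.log q) ^ 2 ≤
          ∫ x in X..(X ^ (1 + δ) * (q : ℝ) ^ 12), ‖psiChar χ x‖ ^ 2 / x ^ 2) ∧
        c * X ^ (-(η / Real.log q)) * (Real.log q) ^ 2 ≤
          ∫ x in X..(X ^ (1 + δ) * (q : ℝ) ^ 12), V x q / x ^ 2 ∧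
        ∃ x : ℝ, X ≤ x ∧ x ≤ X ^ (1 + δ) * (q : ℝ) ^ 12 ∧
          ∃ a : ℕ, 1 ≤ a ∧ a ≤ q ∧ Nat.Coprime a q ∧
          c * X ^ (-(η / Real.log q)) * Real.sqrt (x * Real.log q / (Nat.totient q : ℝ)) ≤
            |psi x q a - x / (Nat.totient q : ℝ)| := by
  obtain ⟨c₁, hc₁, q₁, h₁⟩ := characters ε η δ hε hη hδ
  obtain ⟨c₂, hc₂, q₂, h₂⟩ := variance η δ hη hδ
  obtain ⟨c₃, hc₃, q₃, h₃⟩ := one_class η δ hη hδ
  refine ⟨min c₁ (min c₂ c₃), lt_min hc₁ (lt_min hc₂ hc₃), max q₁ (max q₂ q₃), fun q _ hq => ?_⟩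
  have hq₁ : q₁ ≤ q := (le_max_left _ _).trans hq
  have hq₂ : q₂ ≤ q := (le_max_left _ _).trans ((le_max_right _ _).trans hq)
  have hq₃ : q₃ ≤ q := (le_max_right _ _).trans ((le_max_right _ _).trans hq)
  have hm₁ : min c₁ (min c₂ c₃) ≤ c₁ := min_le_left _ _
  have hm₂ : min c₁ (min c₂ c₃) ≤ c₂ := (min_le_right _ _).trans (min_le_left _ _)
  have hm₃ : min c₁ (min c₂ c₃) ≤ c₃ := (min_le_right _ _).trans (min_le_right _ _)
  obtain ⟨S, hS, hS'⟩ := h₁ q hq₁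
  refine ⟨S, hS, fun X hX => ?_⟩
  have hX0 : 0 ≤ X := le_trans (Nat.cast_nonneg q) hX
  have hE : 0 ≤ X ^ (-(η / Real.log q)) := Real.rpow_nonneg hX0 _
  refine ⟨fun χ hχ => ?_, ?_, ?_⟩
  · refine le_trans ?_ (hS' χ hχ X hX)
    exact mul_le_mul_of_nonneg_right (mul_le_mul_of_nonneg_right hm₁ hE) (sq_nonneg _)
  · refine le_trans ?_ (h₂ q hq₂ X hX)
    exact mul_le_mul_of_nonneg_right (mul_le_mul_of_nonneg_right hm₂ hE) (sq_nonneg _)
  · obtain ⟨x, hx1, hx2, a, ha1, ha2, ha3, ha4⟩ := h₃ q hq₃ X hX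
    refine ⟨x, hx1, hx2, a, ha1, ha2, ha3, le_trans ?_ ha4⟩
    exact mul_le_mul_of_nonneg_right (mul_le_mul_of_nonneg_right hm₃ hE) (Real.sqrt_nonneg _)

end Pool.Agent.Results.MP_9cfc0a_nt.SharpOrder
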