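import Mathlib
import Pool.Agent.Lib.MP_9cfc0a_nt.L3
import Pool.Agent.Lib.MP_9cfc0a_nt.L6

set_option autoImplicit false

namespace Pool.Agent.Results.MP_9cfc0a_nt.SomeScales

/-- `ψ(x; q, a)`, the sum of the von Mangoldt function over `n ≤ x`, `n ≡ a (mod q)`. -/
noncomputable def psi (x : ℝ) (q a : ℕ) : ℝ :=
  ∑ n ∈ (Finset.Icc 1 ⌊x⌋₊).filter (fun n => n % q = a % q), ArithmeticFunction.vonMangoldt n

/-- The pairs `(p, a)` with `p ≤ x ^ (1/2)` prime and `1 ≤ a < p` (the reduced classes to prime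
moduli up to `x ^ (1/2)`) for which `|ψ(x; p, a) - x / φ(p)| > lam (x / p) ^ (1/2)`. -/
def exceptional (x lam : ℝ) : Set (ℕ × ℕ) :=
  {y | y.1.Prime ∧ (y.1 : ℝ) ≤ Real.sqrt x ∧ 1 ≤ y.2 ∧ y.2 < y.1 ∧
    lam * Real.sqrt (x / y.1) < |psi x y.1 y.2 - x / (Nat.totient y.1 : ℝ)|}

/-- Every interval `[X, X ^ 2]` with `X` large contains an `x` such that, for all `lam > 0`, the bound
`|ψ(x; p, a) - x / φ(p)| ≤ lam (x / p) ^ (1/2)` holds for all but at most `250 x log x / lam ^ 2`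
of the reduced classes `a` to prime moduli `p ≤ x ^ (1/2)`. -/
theorem result : ∃ X₀ : ℝ, ∀ X : ℝ, X₀ ≤ X → ∃ x : ℝ, X ≤ x ∧ x ≤ X ^ 2 ∧
    ∀ lam : ℝ, 0 < lam → (exceptional x lam).Finite ∧
      ((exceptional x lam).ncard : ℝ) ≤ 250 * x * Real.log x / lam ^ 2 := by
  obtain ⟨X₁, hX₁, h⟩ := Pool.Agent.MC.exists_small_error_sq
  refine ⟨max X₁ 2, fun X hX => ?_⟩
  obtain ⟨x, hx1, hx2, hx3⟩ := h X ((le_max_left _ _).trans hX)
  refine ⟨x, hx1, hx2, fun lam hlam => ⟨Pool.Agent.MC.excP_finite x lam, ?_⟩⟩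
  exact Pool.Agent.MC.excP_bound x (((le_max_right _ _).trans hX).trans hx1) hx3 lam hlam

end Pool.Agent.Results.MP_9cfc0a_nt.SomeScales
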