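import Mathlib
import Pool.Agent.Lib.MP_9cfc0a_nt.MeanLower

set_option autoImplicit false

namespace Pool.Agent.Results.MP_9cfc0a_nt.VarianceLower

open Finset

/-- `ψ(x; q, a)`, the sum of the von Mangoldt function over `n ≤ x`, `n ≡ a (mod q)`. -/
noncomputable def psi (x : ℝ) (q a : ℕ) : ℝ :=
  ∑ n ∈ (Finset.Icc 1 ⌊x⌋₊).filter (fun n => n % q = a % q), ArithmeticFunction.vonMangoldt n

/-- `V(x; q)`, the sum over `1 ≤ a ≤ q`, `(a, q) = 1`, of `|ψ(x; q, a) - x / φ(q)| ^ 2`. -/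
noncomputable def V (x : ℝ) (q : ℕ) : ℝ :=
  ∑ a ∈ (Finset.Icc 1 q).filter (fun a => Nat.Coprime a q), (psi x q a - x / (Nat.totient q : ℝ)) ^ 2

lemma V_eq_varN (k q : ℕ) (hq : 1 ≤ q) : V k q = Pool.Agent.MC.varN k q := by
  unfold V Pool.Agent.MC.varN Pool.Agent.MC.frac
  refine Finset.sum_bij' (fun a _ => a % q) (fun a _ => if a = 0 then q else a) ?_ ?_ ?_ ?_ ?_
  · intro a ha
    rw [Finset.mem_filter, Finset.mem_Icc] at ha
    rw [Finset.mem_filter, Finset.mem_range]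
    refine ⟨Nat.mod_lt _ (by omega), ?_⟩
    have := ha.2
    rw [Nat.coprime_iff_gcd_eq_one] at this ⊢
    rw [← Nat.gcd_rec, Nat.gcd_comm]
    exact this
  · intro a ha
    rw [Finset.mem_filter, Finset.mem_range] at ha
    rw [Finset.mem_filter, Finset.mem_Icc]
    by_cases h0 : a = 0
    · rw [if_pos h0]
      have h1 : Nat.Coprime 0 q := h0 ▸ ha.2
      rw [Nat.coprime_zero_left] at h1
      refine ⟨⟨hq, le_rfl⟩, ?_⟩
      rw [h1]
      decide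
    · rw [if_neg h0]
      exact ⟨⟨by omega, by omega⟩, ha.2⟩
  · intro a ha
    rw [Finset.mem_filter, Finset.mem_Icc] at ha
    rcases Nat.lt_or_ge a q with h | h
    · rw [Nat.mod_eq_of_lt h, if_neg (by omega)]
    · have : a = q := by omega
      rw [this, Nat.mod_self, if_pos rfl]
  · intro a ha
    rw [Finset.mem_filter, Finset.mem_range] at ha
    by_cases h0 : a = 0
    · rw [if_pos h0, Nat.mod_self, h0]
    · rw [if_neg h0, Nat.mod_eq_of_lt ha.1]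
  · intro a ha
    unfold psi Pool.Agent.MC.psiN
    rw [Nat.floor_natCast]

/-- There are `c > 0` and `X₀` such that for all real `X ≥ X₀`, the sum over integers
`k ∈ [X, 1000 X]` and moduli `X ^ (1/1000) < q ≤ X ^ (1/2)` of `V(k; q) / q` is at least
`c X ^ 2 log X`. -/
theorem result : ∃ c : ℝ, 0 < c ∧ ∃ X₀ : ℝ, 1 ≤ X₀ ∧ ∀ X : ℝ, X₀ ≤ X →
    c * (X ^ 2 * Real.log X)
      ≤ ∑ k ∈ Finset.Icc ⌈X⌉₊ ⌊1000 * X⌋₊,
          ∑ q ∈ (Finset.Icc 1 ⌊Real.sqrt X⌋₊).filter (fun q : ℕ => X ^ (1 / 1000 : ℝ) < (q : ℝ)),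
            V (k : ℝ) q / (q : ℝ) := by
  obtain ⟨c, hc, X₀, hX₁, hX₀⟩ := Pool.Agent.MC.mean_lower
  refine ⟨c, hc, X₀, hX₁, ?_⟩
  intro X hX
  refine (hX₀ X hX).trans (le_of_eq ?_)
  refine Finset.sum_congr rfl fun k _ => ?_
  have hX0 : 0 ≤ X := by linarith
  have hset : (Finset.Icc 1 ⌊Real.sqrt X⌋₊).filter (fun q : ℕ => X ^ (1 / 1000 : ℝ) < (q : ℝ))
      = Finset.Ioc ⌊X ^ (1 / 1000 : ℝ)⌋₊ ⌊Real.sqrt X⌋₊ := by
    ext q
    rw [Finset.mem_filter, Finset.mem_Icc, Finset.mem_Ioc, Nat.floor_lt (by positivity)]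
    constructor
    · rintro ⟨⟨_, h2⟩, h3⟩
      exact ⟨h3, h2⟩
    · rintro ⟨h1, h2⟩
      refine ⟨⟨?_, h2⟩, h1⟩
      have : (0 : ℝ) < q := lt_of_le_of_lt (by positivity) h1
      exact_mod_cast this
  rw [hset]
  refine Finset.sum_congr rfl fun q hq => ?_
  rw [Finset.mem_Ioc] at hq
  rw [V_eq_varN k q (by omega)]

end Pool.Agent.Results.MP_9cfc0a_nt.VarianceLower
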