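import Mathlib
import Pool.Agent.Lib.MP_9cfc0a_nt.Mg.G077

set_option autoImplicit false

namespace Pool.Agent.Results.MP_9cfc0a_nt.ZeroDensity

/-- `ψ(x; q, a)`: the sum of `Λ(n)` over `1 ≤ n ≤ x` with `n ≡ a (mod q)`. -/
noncomputable def psi (x : ℝ) (q a : ℕ) : ℝ :=
  ∑ n ∈ (Finset.Icc 1 ⌊x⌋₊).filter (fun n => n % q = a % q), ArithmeticFunction.vonMangoldt n

/-- `V(x; q)`: the sum of `(ψ(x; q, a) - x / φ(q))²` over the reduced residues `1 ≤ a ≤ q`. -/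
noncomputable def V (x : ℝ) (q : ℕ) : ℝ :=
  ∑ a ∈ (Finset.Icc 1 q).filter (fun a => Nat.Coprime a q),
    (psi x q a - x / (Nat.totient q : ℝ)) ^ 2

/-- The number of Dirichlet characters `χ` mod `q` (the principal one included) whose L-function
has a zero `ρ` with `σ ≤ Re ρ < 1` and `|Im ρ| ≤ T`. -/
noncomputable def charsWithZero (q : ℕ) [NeZero q] (σ T : ℝ) : ℕ :=
  Nat.card {χ : DirichletCharacter ℂ q //
    ∃ ρ : ℂ, χ.LFunction ρ = 0 ∧ σ ≤ ρ.re ∧ ρ.re < 1 ∧ |ρ.im| ≤ T}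

/-- Consequence for Montgomery's bound: if it holds (with constants `C` and `ε`) for one modulus
`q`, all classes `a` and all `x` in one window `[X, X^K]`, then at most `φ(q) X^(1 - 2σ + 7ε)`
characters mod `q` have a zero with `Re ρ ≥ σ` and `|Im ρ| ≤ X^ε`. -/
theorem montgomery_window : ∀ C ε : ℝ, 0 < ε → ∃ (K : ℕ) (X₀ : ℝ),
    ∀ (q : ℕ) [NeZero q] (X σ : ℝ), (q : ℝ) ≤ X → X₀ ≤ X → 1 / 2 ≤ σ →
      (∀ x : ℝ, X ≤ x → x ≤ X ^ K → ∀ a : ℕ, 1 ≤ a → a ≤ q → Nat.Coprime a q →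
        |psi x q a - x / (Nat.totient q : ℝ)| ≤ C * x ^ (1 / 2 + ε) / (q : ℝ) ^ (1 / 2 : ℝ)) →
      (charsWithZero q σ (X ^ ε) : ℝ) ≤ (Nat.totient q : ℝ) * X ^ (1 - 2 * σ + 7 * ε) := by
  intro C ε hε
  obtain ⟨K, X₀, _, h⟩ := Pool.Agent.EM.montgomery_window C ε hε
  exact ⟨K, X₀, fun q _ X σ h1 h2 h3 h4 => h q X σ h1 h2 h3 h4⟩

/-- For every modulus `q`, every `X ≥ max (q, X₀)`, every `σ ≥ 1/2` and every `T` in `[1, X^A]`,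
the number of characters mod `q` with a zero in `σ ≤ Re s < 1`, `|Im s| ≤ T` is at most
`X^ε T² φ(q)` times the mean of the variance `V(x; q)` over the window `[X, X^K]` with the weight
`x^(-1 - 2σ)`. -/
theorem result : ∀ (A : ℕ) (ε : ℝ), 0 < ε → ∃ (K : ℕ) (X₀ : ℝ),
    ∀ (q : ℕ) [NeZero q] (X T σ : ℝ), (q : ℝ) ≤ X → X₀ ≤ X → 1 ≤ T → T ≤ X ^ A → 1 / 2 ≤ σ →
      (charsWithZero q σ T : ℝ) ≤ X ^ ε * T ^ 2 * (Nat.totient q : ℝ)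
        * ∫ x in X..(X ^ K), V x q * x ^ (-1 - 2 * σ) := by
  intro A ε hε
  obtain ⟨K, X₀, _, h⟩ := Pool.Agent.EM.zero_density A ε hε
  exact ⟨K, X₀, fun q _ X T σ h1 h2 h3 h4 h5 => h q X T σ h1 h2 h3 h4 h5⟩

end Pool.Agent.Results.MP_9cfc0a_nt.ZeroDensity
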